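import Pool.Agent.J6H80.BG.Stm3
import Pool.Agent.J6H76.BG.SL

/-!
# BG-BD (MP_4952d6_mp): uniform upper bound of the scattering energies of the `w ≤ V`
-/

set_option autoImplicit false

open MeasureTheory
open scoped ENNReal ContDiff

namespace Pool.Agent.J6H57.BG

open Pool.Agent.J6H80.BG Pool.Agent.J6H76.BG

noncomputable section

/-- the test function: one minus a cut-off -/
def tff (r : ℝ) (x : Fin 3 → ℝ) : ℝ := 1 - ch r x

theorem tff_smooth (r : ℝ) : ContDiff ℝ ∞ (tff r) := contDiff_const.sub (ch_smooth r)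

theorem tff_test {r : ℝ} (hr : 0 < r) : IsTest (tff r) := by
  refine ⟨tff_smooth r, 2 * r, fun x hx => ?_⟩
  unfold tff
  rw [ch_zero hr hx, sub_zero]

/-- the gradient part of the energy -/
def gp (m r : ℝ) (x : Fin 3 → ℝ) : ℝ :=
  1 / m * ∑ a : Fin 3, (fderiv ℝ (tff r) x (Pi.single a 1)) ^ 2

theorem gp_cont (m r : ℝ) : Continuous (gp m r) := by
  have h : Continuous (fderiv ℝ (tff r)) := (tff_smooth r).continuous_fderiv (by simp)
  unfold gp
  refine continuous_const.mul (continuous_finsetSum _ fun a _ => ?_)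
  exact (h.clm_apply continuous_const).pow 2

theorem gp_int (m : ℝ) {r : ℝ} (hr : 0 < r) : Integrable (gp m r) := by
  refine (gp_cont m r).integrable_of_hasCompactSupport ?_
  refine HasCompactSupport.intro (isCompact_closedBall (0 : Fin 3 → ℝ) (2 * r)) fun x hx => ?_
  rw [mem_closedBall_zero_iff, not_le] at hx
  unfold gp
  have h : ∀ a : Fin 3, fderiv ℝ (tff r) x (Pi.single a 1) = 0 := by
    intro a
    have h1 : fderiv ℝ (tff r) x = - fderiv ℝ (ch r) x := by
      unfold tff
      rw [fderiv_const_sub]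
    rw [h1]
    show -(fderiv ℝ (ch r) x (Pi.single a 1)) = 0
    rw [ch_deriv_zero hr hx, neg_zero]
  simp [h]

theorem t_BD : S_BD := by
  intro m hm V hV R₀ hfin
  set r : ℝ := max R₀ 1 with hr
  have hr0 : 0 < r := lt_of_lt_of_le one_pos (le_max_right _ _)
  have hRr : R₀ ≤ r := le_max_left _ _
  refine ⟨(∫ x, gp m r x) + (∫⁻ x in {x | R₀ < ‖x‖}, V x).toReal, fun w hw => ?_⟩
  refine (Pool.Agent.J6H76.BG.scatG_le hm hw.nonneg (tff_test hr0)).trans ?_
  have hS : MeasurableSet {x : Fin 3 → ℝ | R₀ < ‖x‖} := measurableSet_lt measurable_const measurable_norm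
  have hind : Integrable ({x : Fin 3 → ℝ | R₀ < ‖x‖}.indicator w) := hw.int.indicator hS
  have hle : ∀ x, w x * tff r x ^ 2 ≤ {x : Fin 3 → ℝ | R₀ < ‖x‖}.indicator w x := by
    intro x
    by_cases hx : R₀ < ‖x‖
    · rw [Set.indicator_of_mem (show x ∈ {x : Fin 3 → ℝ | R₀ < ‖x‖} from hx)]
      have h1 : 0 ≤ tff r x := by
        unfold tff
        linarith [ch_le r x]
      have h2 : tff r x ≤ 1 := by
        unfold tff
        linarith [ch_nonneg r x]
      have h3 : tff r x ^ 2 ≤ 1 := by nlinarith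
      nlinarith [hw.nonneg x]
    · rw [Set.indicator_of_notMem (show x ∉ {x : Fin 3 → ℝ | R₀ < ‖x‖} from hx)]
      rw [not_lt] at hx
      have h1 : tff r x = 0 := by
        unfold tff
        rw [ch_one hr0 (hx.trans hRr), sub_self]
      rw [h1]
      simp
  have hwi : Integrable (fun x => w x * tff r x ^ 2) := by
    refine hind.mono' ((hw.meas.mul ((tff_smooth r).continuous.measurable.pow_const 2)).aestronglyMeasurable)
      (Filter.Eventually.of_forall fun x => ?_)
    rw [Real.norm_eq_abs, abs_of_nonneg (mul_nonneg (hw.nonneg x) (sq_nonneg _))]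
    exact hle x
  have e : dirE m w (tff r) = (∫ x, gp m r x) + ∫ x, w x * tff r x ^ 2 := by
    unfold dirE
    rw [← integral_add (gp_int m hr0) hwi]
    rfl
  rw [e]
  have h4 : ∫ x, w x * tff r x ^ 2 ≤ (∫⁻ x in {x | R₀ < ‖x‖}, V x).toReal := by
    calc ∫ x, w x * tff r x ^ 2 ≤ ∫ x, {x : Fin 3 → ℝ | R₀ < ‖x‖}.indicator w x :=
          integral_mono hwi hind hle
      _ = ∫ x in {x : Fin 3 → ℝ | R₀ < ‖x‖}, w x := integral_indicator hS
      _ = (∫⁻ x in {x : Fin 3 → ℝ | R₀ < ‖x‖}, ENNReal.ofReal (w x)).toReal := by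
          rw [integral_eq_lintegral_of_nonneg_ae (Filter.Eventually.of_forall hw.nonneg)
            hw.meas.aestronglyMeasurable]
      _ ≤ _ := ENNReal.toReal_mono hfin (lintegral_mono fun x => hw.le x)
  linarith

end

end Pool.Agent.J6H57.BG
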